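import Mathlib
import Pool.Agent.H892R2.Proj.Link

/-!
# Intrinsic volumes of hyperplane projections do not determine those of lower projections,
# even for bodies arbitrarily near a ball

In four-space there are, arbitrarily near the unit ball, convex bodies `K₁`, `K₂`, the second of
them centrally symmetric, with `V₂(K₁|u^⊥) = V₂(K₂|u^⊥)` for every `u` and `V₂(K₁|S) ≠ V₂(K₂|S)` for
some plane `S`.
The definitions used in the statement (`E`, `O`, `haarO`, `plane`, `proj`, `within`, `vol`, `kappa`,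
`flagCoeff`, `intrinsicVolume`, `coord`, `coords`, `projVolume`) are in `Pool.Agent.H892R2.Proj.Defs`.
-/

set_option autoImplicit false

open Set MeasureTheory Module
open scoped RealInnerProductSpace

namespace Pool.Agent.Results.MP_536123_gt.NearTheBall

open Pool.Agent.H892R2.Proj

/-- A convex body: a compact convex set with nonempty interior. -/
def IsConvexBody {n : ℕ} (K : Set (E n)) : Prop :=
  IsCompact K ∧ Convex ℝ K ∧ (interior K).Nonempty

/-- The Hausdorff distance of `K` from the unit ball is at most `δ`, in the form of inclusions: `K`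
contains the ball of radius `1 - δ` and is contained in the ball of radius `1 + δ`. -/
def IsNearBall {n : ℕ} (δ : ℝ) (K : Set (E n)) : Prop :=
  Metric.closedBall 0 (1 - δ) ⊆ K ∧ K ⊆ Metric.closedBall 0 (1 + δ)

theorem body_interior {σ τ : ℝ} (hσ : |σ| ≤ 1 / 100) (hτ : |τ| ≤ 1 / 1000) :
    (interior (body σ τ)).Nonempty := by
  refine ⟨0, mem_interior.mpr ⟨Metric.ball 0 (1 / 2), ?_, Metric.isOpen_ball, by simp⟩⟩
  intro x hx v hv
  rw [mem_ball_zero_iff] at hx
  have h1 : ⟪v, x⟫ ≤ ‖v‖ * ‖x‖ := real_inner_le_norm _ _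
  rw [hv, one_mul] at h1
  have h2 := (abs_le.mp (PP_bound hσ hτ (le_one_of_norm hv))).1
  linarith

theorem PP_small {σ τ X Y : ℝ} (h : X ^ 2 + Y ^ 2 ≤ 1) : |PP σ τ X Y| ≤ |σ| + 2 * |τ| := by
  have h1 := oo_abs h
  have hB : 0 ≤ X ^ 2 + Y ^ 2 := by positivity
  have hb2 : (X ^ 2 + Y ^ 2) ^ 2 ≤ 1 := pow_le_one₀ hB h
  have hb5 : 0 ≤ (X ^ 2 + Y ^ 2) ^ 2 := by positivity
  have hb8 : 0 ≤ (oo X Y) ^ 2 := by positivity
  have ho2 : (oo X Y) ^ 2 ≤ 1 := by
    have := abs_le.mp h1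
    nlinarith
  have h2 : |DD X Y| ≤ 2 := by
    unfold DD
    rw [abs_le]
    constructor <;> nlinarith
  unfold PP
  calc |σ * oo X Y + τ * DD X Y| ≤ |σ * oo X Y| + |τ * DD X Y| := abs_add_le _ _
    _ = |σ| * |oo X Y| + |τ| * |DD X Y| := by rw [abs_mul, abs_mul]
    _ ≤ |σ| * 1 + |τ| * 2 := by gcongr
    _ = |σ| + 2 * |τ| := by ring

theorem near {σ τ δ : ℝ} (h : |σ| + 2 * |τ| ≤ δ) : IsNearBall δ (body σ τ) := by
  have hδ : 0 ≤ δ := le_trans (by positivity) h
  constructor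
  · intro x hx v hv
    rw [mem_closedBall_zero_iff] at hx
    have h1 : ⟪v, x⟫ ≤ ‖v‖ * ‖x‖ := real_inner_le_norm _ _
    rw [hv, one_mul] at h1
    have h2 := (abs_le.mp (PP_small (σ := σ) (τ := τ) (le_one_of_norm hv))).1
    linarith
  · intro x hx
    rw [mem_closedBall_zero_iff]
    by_cases h0 : x = 0
    · rw [h0, norm_zero]; linarith
    · have hn : 0 < ‖x‖ := norm_pos_iff.mpr h0
      have hv : ‖(‖x‖⁻¹ • x)‖ = 1 := by
        rw [norm_smul, norm_inv, norm_norm, inv_mul_cancel₀ hn.ne']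
      have h1 := hx _ hv
      rw [inner_smul_left, real_inner_self_eq_norm_sq] at h1
      have h2 := (abs_le.mp (PP_small (σ := σ) (τ := τ) (le_one_of_norm hv))).2
      have h3 : ‖x‖⁻¹ * ‖x‖ ^ 2 = ‖x‖ := by field_simp
      simp only [conj_trivial] at h1
      rw [h3] at h1
      linarith

theorem symmetric (τ : ℝ) : ∀ x ∈ body 0 τ, -x ∈ body 0 τ := by
  intro x hx v hv
  have h1 := hx (-v) (by rw [norm_neg, hv])
  rw [inner_neg_left] at h1
  rw [inner_neg_right]
  have h2 : PP 0 τ ((-v) 0) ((-v) 1) = PP 0 τ (v 0) (v 1) := by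
    show PP 0 τ (-(v 0)) (-(v 1)) = _
    unfold PP DD oo
    ring
  rw [h2] at h1
  exact h1

/-- For every `δ > 0` there are convex bodies `K₁`, `K₂` in four-dimensional space at distance at
most `δ` from the unit ball, the second of them centrally symmetric, such that
`V₂(K₁|u^⊥) = V₂(K₂|u^⊥)` for every unit vector `u`, while `V₂(K₁|S) ≠ V₂(K₂|S)` for some
two-dimensional subspace `S` (so the implication fails for `n = 4`, `i = k = 2`, even near the
ball). -/
theorem result (δ : ℝ) (hδ : 0 < δ) : ∃ K₁ K₂ : Set (E 4),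
    IsConvexBody K₁ ∧ IsConvexBody K₂ ∧ IsNearBall δ K₁ ∧ IsNearBall δ K₂ ∧ (∀ x ∈ K₂, -x ∈ K₂) ∧
    (∀ u : E 4, ‖u‖ = 1 → projVolume 2 K₁ (ℝ ∙ u)ᗮ = projVolume 2 K₂ (ℝ ∙ u)ᗮ) ∧
    ∃ S : Submodule ℝ (E 4), finrank ℝ S = 2 ∧ projVolume 2 K₁ S ≠ projVolume 2 K₂ S := by
  set ε : ℝ := min (1 / 100) (δ / 2) with hε
  have e0 : 0 < ε := lt_min (by norm_num) (by positivity)
  have e1 : ε ≤ 1 / 100 := min_le_left _ _
  have e2 : ε ≤ δ / 2 := min_le_right _ _
  have e3 : ε ^ 2 ≤ ε / 100 := by nlinarith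
  have e4 : 0 ≤ ε ^ 2 := by positivity
  have a1 : |ε| ≤ 1 / 100 := by rw [abs_of_pos e0]; exact e1
  have a2 : |ε ^ 2| ≤ 1 / 1000 := by rw [abs_of_nonneg e4]; nlinarith
  have a3 : |(0:ℝ)| ≤ 1 / 100 := by norm_num
  have a4 : |-ε ^ 2| ≤ 1 / 1000 := by rw [abs_neg]; exact a2
  refine ⟨body ε (ε ^ 2), body 0 (-ε ^ 2), ⟨body_compact a1 a2, body_convex _ _, body_interior a1 a2⟩,
    ⟨body_compact a3 a4, body_convex _ _, body_interior a3 a4⟩, near ?_, near ?_, symmetric _, ?_,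
    S0, S0_finrank, ?_⟩
  · rw [abs_of_pos e0, abs_of_nonneg e4]
    linarith
  · rw [abs_zero, abs_neg, abs_of_nonneg e4]
    linarith
  · intro u hu
    exact hyperplane_eq ε e0 e1 u hu
  · exact plane_ne ε e0 e1

end Pool.Agent.Results.MP_536123_gt.NearTheBall
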